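import Mathlib
import Pool.Agent.Lib.MP_078bb2_an.Defs
import Pool.Agent.Lib.MP_078bb2_an.Bridge2

set_option autoImplicit false

namespace Pool.Agent.Lib.MP_078bb2_an.Old.GenericExponent

open MeasureTheory Pool.Agent.Lib.MP_078bb2_an

/-- If no multiple `m * p` with `1 ≤ m ≤ d` is an integer, each minimiser of the `p`-frame
energy among Borel probability measures on the unit sphere `S^d` has finite support. -/
theorem result (d : ℕ) (p : ℝ) (hp0 : 0 < p)
    (hp : ∀ m k : ℕ, 1 ≤ m → m ≤ d → (m : ℝ) * p ≠ k)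
    (μ : Measure (Metric.sphere (0 : EuclideanSpace ℝ (Fin (d + 1))) 1))
    (hmin : IsMinimizer p μ) : μ.support.Finite := by
  have := hmin.1
  refine finite_of_psd' (ptFin_of_forall hp0 hp) fun ι _ x a hx => ?_
  refine psd_support (μ := μ)
    (K := fun x y : Metric.sphere (0 : EuclideanSpace ℝ (Fin (d + 1))) 1 => |inner ℝ x.1 y.1| ^ p)
    ?_ (fun x y => by positivity) hmin.2 x a hx
  exact Continuous.rpow_const (by fun_prop) fun _ => Or.inr hp0.le

end Pool.Agent.Lib.MP_078bb2_an.Old.GenericExponent
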